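import Pool.Agent.helper76.FV.Defs2
import Pool.Agent.helper34.FV.CT

/-! Project FV (MP_3703a7_ag): module CR, counting the points of a family by its rank -/

set_option autoImplicit false

namespace Pool.Agent.helper76.FV

open Finset

theorem CR_row {k : ℕ} (H : Fam k) (T : Finset (Fin k)) (j : Fin k)
    (hT : ∃ D : ℤ, D ≠ 0 ∧ ∃ c : Fin k → ℤ, ∀ l, D * H.A j l = ∑ i ∈ T, c i * H.A i l) :
    ∃ (p : ℤ) (Θ : (Fin k → ℚ) → ℚ), p ≠ 0 ∧
      (∀ x y : Fin k → ℚ, (∀ i ∈ T, x i = y i) → Θ x = Θ y) ∧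
      ∀ x, H.Mem x → ∃ n : ℤ, (p : ℚ) * x j = Θ x + n := by
  obtain ⟨D, hD, c, hc⟩ := hT
  refine ⟨D, fun x => ∑ i ∈ T, (c i : ℚ) * x i + D * H.b j - ∑ i ∈ T, (c i : ℚ) * H.b i, hD,
    fun x y hxy => ?_, ?_⟩
  · have : ∑ i ∈ T, (c i : ℚ) * x i = ∑ i ∈ T, (c i : ℚ) * y i :=
      Finset.sum_congr rfl fun i hi => by rw [hxy i hi]
    simp only [this]
  · rintro x ⟨u, hu⟩
    choose n hn using hu
    refine ⟨D * n j - ∑ i ∈ T, c i * n i, ?_⟩
    have h1 : (D : ℚ) * ∑ l, (H.A j l : ℚ) * u l =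
        ∑ i ∈ T, (c i : ℚ) * ∑ l, (H.A i l : ℚ) * u l := by
      rw [Finset.mul_sum]
      simp only [Finset.mul_sum]
      rw [Finset.sum_comm]
      refine Finset.sum_congr rfl fun l _ => ?_
      have h3 : (D : ℚ) * H.A j l = ∑ i ∈ T, (c i : ℚ) * H.A i l := by exact_mod_cast hc l
      rw [← mul_assoc, h3, Finset.sum_mul]
      exact Finset.sum_congr rfl fun i _ => by ring
    have h2 : ∑ i ∈ T, (c i : ℚ) * x i =
        ∑ i ∈ T, (c i : ℚ) * ∑ l, (H.A i l : ℚ) * u l + ∑ i ∈ T, (c i : ℚ) * H.b i +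
          ∑ i ∈ T, (c i : ℚ) * n i := by
      rw [← Finset.sum_add_distrib, ← Finset.sum_add_distrib]
      refine Finset.sum_congr rfl fun i _ => ?_
      rw [hn i]
      ring
    simp only []
    rw [hn j, h2]
    push_cast
    linear_combination h1

theorem count_rank {k : ℕ} (H : Fam k) (T : Finset (Fin k))
    (hT : ∀ j, ∃ D : ℤ, D ≠ 0 ∧ ∃ c : Fin k → ℤ, ∀ l, D * H.A j l = ∑ i ∈ T, c i * H.A i l) :
    ∃ C : ℕ, ∀ m : ℕ, 0 < m →
      Set.ncard {a : Fin k → ZMod m | H.Mem (frac m a)} ≤ C * m ^ T.card := by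
  classical
  choose p Θ hp hΘ hmem using fun j => CR_row H T j (hT j)
  refine ⟨∏ j, (2 * (p j).natAbs + 1), fun m hm => ?_⟩
  have : NeZero m := ⟨hm.ne'⟩
  set S : Finset (Fin k → ZMod m) := univ.filter (fun a => H.Mem (frac m a)) with hS
  have hSmem : ∀ a, a ∈ S ↔ H.Mem (frac m a) := by intro a; rw [hS]; simp
  have hcoe : {a : Fin k → ZMod m | H.Mem (frac m a)} = (S : Set (Fin k → ZMod m)) := by
    ext a
    rw [Finset.mem_coe, hSmem]
    rfl
  rw [hcoe, Set.ncard_coe_finset]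
  let f : (Fin k → ZMod m) → (T → ZMod m) := fun a i => a i
  have h1 : S.card ≤ (∏ j, (2 * (p j).natAbs + 1)) * (S.image f).card := by
    refine Finset.card_le_mul_card_image S _ ?_
    intro b hb
    obtain ⟨a0, ha0, hfa0⟩ := Finset.mem_image.1 hb
    let U : Fin k → Finset (ZMod m) := fun j =>
      univ.filter (fun z : ZMod m => ∃ n : ℤ, (p j : ℚ) * ((z.val : ℚ) / m) =
        Θ j (frac m a0) + n)
    have hU : ∀ j, (U j).card ≤ 2 * (p j).natAbs + 1 := by
      intro j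
      have := CT_one m hm (p j) (hp j) (Θ j (frac m a0))
      refine le_trans (le_of_eq ?_) this
      rw [← Set.ncard_coe_finset]
      congr 1
      ext z
      simp [U]
    have hsub : S.filter (fun a => f a = b) ⊆ Fintype.piFinset U := by
      intro a ha
      rw [Finset.mem_filter] at ha
      rw [Fintype.mem_piFinset]
      intro j
      obtain ⟨n, hn⟩ := hmem j _ ((hSmem a).1 ha.1)
      have h2 : Θ j (frac m a) = Θ j (frac m a0) := by
        apply hΘ
        intro i hi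
        have h3 : f a ⟨i, hi⟩ = f a0 ⟨i, hi⟩ := by rw [ha.2, hfa0]
        have h4 : a i = a0 i := h3
        show ((a i).val : ℚ) / m = ((a0 i).val : ℚ) / m
        rw [h4]
      rw [h2] at hn
      exact Finset.mem_filter.2 ⟨Finset.mem_univ _, n, hn⟩
    refine (Finset.card_le_card hsub).trans ?_
    rw [Fintype.card_piFinset]
    exact Finset.prod_le_prod' fun j _ => hU j
  have h2 : (S.image f).card ≤ m ^ T.card := by
    refine (Finset.card_le_univ _).trans ?_
    rw [Fintype.card_fun, ZMod.card, Fintype.card_coe]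
  exact h1.trans (Nat.mul_le_mul_left _ h2)

end Pool.Agent.helper76.FV
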